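import Mathlib
import Pool.Agent.Pyj.Main

set_option autoImplicit false

open scoped Pointwise

namespace Pool.Agent.Results.MP_5b7aa2_co.ExplicitExponent

/-- The pyjama set of width `ε`. -/
def Pyjama (ε : ℝ) : Set ℂ := {z | ∃ k : ℤ, |z.re - (k : ℝ)| ≤ ε}

/-- The copy of `A` rotated by the angle `θ` about the origin. -/
def rotated (θ : ℝ) (A : Set ℂ) : Set ℂ := (fun z => Complex.exp ((θ : ℂ) * Complex.I) * z) '' A

open Pyj in
theorem result (ε : ℝ) (h0 : 0 < ε) (h1 : ε ≤ 1 / 10 ^ 6) :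
    ∃ Θ : Finset ℝ, (Θ.card : ℝ) ≤ (1 / ε) ^ 7000 ∧
      ⋃ θ ∈ Θ, rotated θ (Pyjama ε) = Set.univ := by
  classical
  set n : ℕ := ⌈2 / ε⌉₊ with hn
  have h2 : 2 / ε ≤ n := Nat.le_ceil _
  have h3 : (n : ℝ) < 2 / ε + 1 := Nat.ceil_lt_add_one (by positivity)
  have hε1 : (10 : ℝ) ^ 6 ≤ 1 / ε := by
    rw [le_div_iff₀ h0]
    calc (10 : ℝ) ^ 6 * ε ≤ 10 ^ 6 * (1 / 10 ^ 6) := by
          apply mul_le_mul_of_nonneg_left h1 (by norm_num)
      _ = 1 := by norm_num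
  have h4 : (10 : ℝ) ^ 6 ≤ n := by
    have : 2 / ε = 2 * (1 / ε) := by ring
    nlinarith
  have hn6 : 10 ^ 6 ≤ n := by exact_mod_cast h4
  obtain ⟨U, hU, hcard, hcov⟩ := pack_final n hn6
  have hnpos : (0 : ℝ) < n := lt_of_lt_of_le (by norm_num) h4
  have h5 : 2 / (n : ℝ) ≤ ε := by
    rw [div_le_iff₀ hnpos]
    rw [div_le_iff₀ h0] at h2
    linarith [mul_comm ε (n : ℝ)]
  refine ⟨U.image (fun u => -Complex.arg u), ?_, ?_⟩
  · have h6 : (U.image (fun u => -Complex.arg u)).card ≤ U.card := Finset.card_image_le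
    have h7 : (((U.image (fun u => -Complex.arg u)).card : ℕ) : ℝ) ≤ (n : ℝ) ^ 3500 :=
      le_trans (by exact_mod_cast h6) hcard
    have h8 : (n : ℝ) ≤ (1 / ε) ^ 2 := by
      have : 2 / ε = 2 * (1 / ε) := by ring
      nlinarith
    calc (((U.image (fun u => -Complex.arg u)).card : ℕ) : ℝ) ≤ (n : ℝ) ^ 3500 := h7
      _ ≤ ((1 / ε) ^ 2) ^ 3500 := pow_le_pow_left₀ hnpos.le h8 _
      _ = (1 / ε) ^ 7000 := by rw [← pow_mul]
  · rw [Set.eq_univ_iff_forall]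
    intro z
    obtain ⟨u, hu, k, hk⟩ := hcov z
    rw [Set.mem_iUnion₂]
    refine ⟨-Complex.arg u, Finset.mem_image_of_mem _ hu, ?_⟩
    have hu1 : Complex.exp (((Complex.arg u : ℝ) : ℂ) * Complex.I) = u := by
      have h := Complex.norm_mul_exp_arg_mul_I u
      rw [hU u hu] at h
      simpa using h
    refine ⟨z * u, ⟨k, hk.trans h5⟩, ?_⟩
    have h2' : Complex.exp (((-Complex.arg u : ℝ) : ℂ) * Complex.I) * u = 1 := by
      nth_rewrite 2 [← hu1]
      rw [← Complex.exp_add]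
      push_cast
      rw [neg_mul, neg_add_cancel, Complex.exp_zero]
    show Complex.exp (((-Complex.arg u : ℝ) : ℂ) * Complex.I) * (z * u) = z
    calc Complex.exp (((-Complex.arg u : ℝ) : ℂ) * Complex.I) * (z * u)
        = z * (Complex.exp (((-Complex.arg u : ℝ) : ℂ) * Complex.I) * u) := by ring
      _ = z := by rw [h2', mul_one]

end Pool.Agent.Results.MP_5b7aa2_co.ExplicitExponent
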